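import Pool.Agent.PQP.StmtsC

set_option autoImplicit false

/-!
# Squad PQP, row ASC: the Arzela-Ascoli theorem for sequences on the sphere
-/

open scoped InnerProductSpace Topology ContDiff Manifold BoundedContinuousFunction
open MeasureTheory Filter Set

noncomputable section

namespace Pool.Agent.PQP.H29

open Pool.Agent.Helper42_Paneitz Pool.Agent.Helper82_Vir Pool.Agent.FLX

theorem asc : AscStmt := by
  intro V hb he
  obtain ⟨C, hC⟩ := hb
  have hcont : ∀ n, Continuous (V n) := by
    intro n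
    rw [Metric.continuous_iff]
    intro x ε hε
    obtain ⟨δ, hδ, h⟩ := he (ε / 2) (by linarith)
    refine ⟨δ, hδ, fun a ha => ?_⟩
    rw [Real.dist_eq]
    have := h n a x ha.le
    linarith
  let F : ℕ → (S4 →ᵇ ℝ) := fun n => BoundedContinuousFunction.mkOfCompact ⟨V n, hcont n⟩
  have hF : ∀ n x, F n x = V n x := fun _ _ => rfl
  have heq : Equicontinuous ((fun f x => (f : S4 →ᵇ ℝ) x) : (Set.range F) → S4 → ℝ) := by
    intro x
    rw [Metric.equicontinuousAt_iff]
    intro ε hε
    obtain ⟨δ, hδ, h⟩ := he (ε / 2) (by linarith)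
    refine ⟨δ, hδ, fun a ha i => ?_⟩
    obtain ⟨f, n, rfl⟩ := i
    show dist (F n x) (F n a) < ε
    rw [hF, hF, Real.dist_eq]
    have := h n x a (by rw [dist_comm]; exact ha.le)
    linarith
  have hcomp : IsCompact (closure (Set.range F)) := by
    refine BoundedContinuousFunction.arzela_ascoli (Set.Icc (-C) C) isCompact_Icc (Set.range F) ?_ heq
    rintro f x ⟨n, rfl⟩
    rw [hF]
    exact abs_le.1 (hC n x)
  obtain ⟨a, -, φ, hφ, hlim⟩ := hcomp.tendsto_subseq (x := F)
    (fun n => subset_closure (Set.mem_range_self n))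
  refine ⟨φ, fun x => a x, hφ, a.continuous, fun ε hε => ?_⟩
  have h1 := (Metric.tendsto_atTop.1 hlim) ε hε
  obtain ⟨N, hN⟩ := h1
  filter_upwards [eventually_ge_atTop N] with n hn
  intro x
  have h2 := BoundedContinuousFunction.dist_coe_le_dist (f := (F ∘ φ) n) (g := a) x
  have h3 := hN n hn
  rw [Real.dist_eq] at h2
  have h4 : ((F ∘ φ) n) x = V (φ n) x := hF _ _
  rw [h4] at h2
  linarith

end Pool.Agent.PQP.H29
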