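import Pool.Agent.PQP.StmtsC

set_option autoImplicit false

/-!
# Squad PQP, row CPL: limits of balanced solutions
-/

open scoped InnerProductSpace Topology ContDiff Manifold
open MeasureTheory Filter Set

noncomputable section

namespace Pool.Agent.PQP.H29

open Pool.Agent.Helper42_Paneitz Pool.Agent.Helper82_Vir Pool.Agent.FLX

theorem cpl_ell_int (eqc : EqcStmt) {g : S4 → ℝ} (hg : Continuous g) (x : S4) :
    Integrable (fun y => ell x y * g y) sig := by
  have h2 : Integrable (fun y => g y ^ 2) sig := integrable_cont (hg.pow 2)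
  have h0 : 0 ≤ ∫ y, g y ^ 2 ∂sig := integral_nonneg fun _ => sq_nonneg _
  obtain ⟨⟨C', -, h⟩, -⟩ := eqc (∫ y, g y ^ 2 ∂sig) h0
  exact (h g hg.measurable h2 le_rfl x).1

theorem cpl_pot_cont (eqc : EqcStmt) {g : S4 → ℝ} (hg : Continuous g) : Continuous (pot g) := by
  have h2 : Integrable (fun y => g y ^ 2) sig := integrable_cont (hg.pow 2)
  have h0 : 0 ≤ ∫ y, g y ^ 2 ∂sig := integral_nonneg fun _ => sq_nonneg _
  obtain ⟨-, h⟩ := eqc (∫ y, g y ^ 2 ∂sig) h0
  rw [Metric.continuous_iff]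
  intro x ε hε
  obtain ⟨δ, hδ, h'⟩ := h (ε / 2) (by linarith)
  refine ⟨δ, hδ, fun a ha => ?_⟩
  rw [Real.dist_eq]
  have := h' g hg.measurable h2 le_rfl a x ha.le
  linarith

theorem cpl_norm_add (x y : S4) :
    ‖(x : E5) + (y : E5)‖ ^ 2 = 2 * (1 + ⟪(y : E5), (x : E5)⟫_ℝ) := by
  rw [norm_add_sq_real, S4_norm, S4_norm, real_inner_comm]
  ring

theorem cpl_sep {w : S4} {wn : ℕ → S4} {ρn : ℕ → ℝ} (hw : Tendsto wn atTop (𝓝 w))
    (hρ : Tendsto ρn atTop (𝓝 0)) {η : ℝ} (hη : 0 < η) :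
    ∀ᶠ n in atTop, (∀ x y : S4, -1 + η ≤ ⟪(w : E5), (x : E5)⟫_ℝ →
      ⟪(wn n : E5), (y : E5)⟫_ℝ < -1 + ρn n → η / 4 ≤ 1 - ⟪(x : E5), (y : E5)⟫_ℝ) ∧
      ∀ x : S4, -1 + η ≤ ⟪(w : E5), (x : E5)⟫_ℝ → -1 + ρn n ≤ ⟪(wn n : E5), (x : E5)⟫_ℝ := by
  set d : ℝ := √(2 * η) with hd
  have hdp : 0 < d := Real.sqrt_pos.2 (by linarith)
  have hd2 : d ^ 2 = 2 * η := Real.sq_sqrt (by linarith)
  have e1 : ∀ᶠ n in atTop, dist (wn n) w < min (d / 4) (η / 2) :=
    (Metric.tendsto_nhds.1 hw) _ (lt_min (by linarith) (by linarith))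
  have e2 : ∀ᶠ n in atTop, ρn n < η / 16 := by
    have := (tendsto_order.1 hρ).2 (η / 16) (by linarith)
    exact this
  filter_upwards [e1, e2] with n h1 h2
  have hdist : dist (wn n) w = ‖(wn n : E5) - (w : E5)‖ := by
    rw [Subtype.dist_eq, dist_eq_norm]
  rw [hdist] at h1
  have h1a : ‖(wn n : E5) - (w : E5)‖ < d / 4 := lt_of_lt_of_le h1 (min_le_left _ _)
  have h1b : ‖(wn n : E5) - (w : E5)‖ < η / 2 := lt_of_lt_of_le h1 (min_le_right _ _)
  constructor
  · intro x y hx hy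
    have hA : d ≤ ‖(x : E5) + (w : E5)‖ := by
      apply (pow_le_pow_iff_left₀ hdp.le (norm_nonneg _) two_ne_zero).1
      rw [cpl_norm_add, hd2]
      linarith
    have hB : ‖(y : E5) + (wn n : E5)‖ ≤ d / 4 := by
      apply (pow_le_pow_iff_left₀ (norm_nonneg _) (by linarith) two_ne_zero).1
      rw [cpl_norm_add]
      nlinarith
    have hsum : (x : E5) + (w : E5) =
        ((x : E5) - (y : E5)) + ((y : E5) + (wn n : E5)) - ((wn n : E5) - (w : E5)) := by
      abel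
    have hC : ‖(x : E5) + (w : E5)‖ ≤
        ‖(x : E5) - (y : E5)‖ + ‖(y : E5) + (wn n : E5)‖ + ‖(wn n : E5) - (w : E5)‖ := by
      rw [hsum]
      exact (norm_sub_le _ _).trans (add_le_add_left (norm_add_le _ _) _)
    have hD : d / 2 ≤ ‖(x : E5) - (y : E5)‖ := by linarith
    have hE := norm_sub_sq_S4 x y
    nlinarith
  · intro x hx
    have h3 : |⟪(wn n : E5) - (w : E5), (x : E5)⟫_ℝ| ≤ ‖(wn n : E5) - (w : E5)‖ := by
      have := abs_real_inner_le_norm ((wn n : E5) - (w : E5)) (x : E5)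
      rwa [S4_norm, mul_one] at this
    rw [inner_sub_left] at h3
    have h4 := (abs_le.1 h3).1
    linarith

theorem cpl_neg_coe (z : S4) : ((-z : S4) : E5) = -(z : E5) := rfl

theorem cpl_cap_closed (z : S4) (u : ℝ) : IsClosed (cap z u) := by
  have h : Continuous fun y : S4 => 1 - ⟪(z : E5), (y : E5)⟫_ℝ :=
    continuous_const.sub (continuous_const.inner continuous_subtype_val)
  exact isClosed_le h continuous_const

theorem cpl_mass {wn : ℕ → S4} {ρn : ℕ → ℝ} {fn : ℕ → S4 → ℝ} (hρ : Tendsto ρn atTop (𝓝 0))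
    (hd : ∀ n, Dens (fn n))
    (hm : ∀ ε : ℝ, 0 < ε → ∃ u : ℝ, 0 < u ∧ ∀ᶠ n in atTop, ∀ z, mas (fn n) z u ≤ ε)
    {ε : ℝ} (hε : 0 < ε) :
    ∀ᶠ n in atTop, ∫ y in {y : S4 | -1 + ρn n ≤ ⟪(wn n : E5), (y : E5)⟫_ℝ}ᶜ, fn n y ∂sig ≤ ε := by
  obtain ⟨u, hu, hmu⟩ := hm ε hε
  have e2 : ∀ᶠ n in atTop, ρn n < u := (tendsto_order.1 hρ).2 u hu
  filter_upwards [hmu, e2] with n h1 h2
  refine le_trans ?_ (h1 (-(wn n)))
  unfold mas
  refine setIntegral_mono_set ((integrable_cont (hd n).1).integrableOn)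
    (Eventually.of_forall fun y => ((hd n).2.1 y).le) (Eventually.of_forall fun y hy => ?_)
  have hy' : ⟪(wn n : E5), (y : E5)⟫_ℝ < -1 + ρn n := not_le.1 hy
  show 1 - ⟪((-(wn n) : S4) : E5), (y : E5)⟫_ℝ ≤ u
  rw [cpl_neg_coe, inner_neg_left]
  linarith

/-- the potential away from `-w` -/
theorem cpl_unif (eqc : EqcStmt) {w : S4} {wn : ℕ → S4} {fn : ℕ → S4 → ℝ} {ρn : ℕ → ℝ}
    {U : S4 → ℝ} (hw : Tendsto wn atTop (𝓝 w)) (hρ : Tendsto ρn atTop (𝓝 0))
    (hd : ∀ n, Dens (fn n))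
    (hm : ∀ ε : ℝ, 0 < ε → ∃ u : ℝ, 0 < u ∧ ∀ᶠ n in atTop, ∀ z, mas (fn n) z u ≤ ε)
    (hU : ∀ ε : ℝ, 0 < ε → ∀ᶠ n in atTop, ∀ x, |4 * pot (fun y =>
      ({y : S4 | -1 + ρn n ≤ ⟪(wn n : E5), (y : E5)⟫_ℝ}).indicator (fn n) y) x - U x| ≤ ε)
    {η : ℝ} (hη : 0 < η) {ε : ℝ} (hε : 0 < ε) :
    ∀ᶠ n in atTop, ∀ x : S4, -1 + η ≤ ⟪(w : E5), (x : E5)⟫_ℝ → |4 * pot (fn n) x - U x| ≤ ε := by
  set Kc : ℝ := |Real.log (η / 4)| + Real.log 2 with hK
  have hKp : 0 < Kc := by
    have : 0 < Real.log 2 := Real.log_pos (by norm_num)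
    have := abs_nonneg (Real.log (η / 4))
    positivity
  have e1 := cpl_sep hw hρ hη
  have e2 := cpl_mass (wn := wn) hρ hd hm (ε := ε / 2 / (4 * Kc)) (by positivity)
  have e3 := hU (ε / 2) (by linarith)
  filter_upwards [e1, e2, e3] with n h1 h2 h3
  intro x hx
  set Ω : Set S4 := {y : S4 | -1 + ρn n ≤ ⟪(wn n : E5), (y : E5)⟫_ℝ} with hΩ
  have hΩc : IsClosed Ω := by
    have h : Continuous fun y : S4 => ⟪(wn n : E5), (y : E5)⟫_ℝ :=
      continuous_const.inner continuous_subtype_val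
    exact isClosed_le continuous_const h
  have hΩm : MeasurableSet Ω := hΩc.measurableSet
  have hint : Integrable (fun y => ell x y * fn n y) sig := cpl_ell_int eqc (hd n).1 x
  have hfi : Integrable (fn n) sig := integrable_cont (hd n).1
  have hsplit : pot (fn n) x = pot (fun y => Ω.indicator (fn n) y) x +
      ∫ y in Ωᶜ, ell x y * fn n y ∂sig := by
    unfold pot
    have e : (fun y => ell x y * Ω.indicator (fn n) y) =
        Ω.indicator (fun y => ell x y * fn n y) := by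
      funext y
      by_cases hy : y ∈ Ω
      · rw [Set.indicator_of_mem hy, Set.indicator_of_mem hy]
      · rw [Set.indicator_of_notMem hy, Set.indicator_of_notMem hy, mul_zero]
    rw [e, integral_indicator hΩm, integral_add_compl hΩm hint]
  have hbound : |∫ y in Ωᶜ, ell x y * fn n y ∂sig| ≤ Kc * ∫ y in Ωᶜ, fn n y ∂sig := by
    rw [← integral_const_mul]
    refine (abs_integral_le_integral_abs).trans ?_
    refine setIntegral_mono_on hint.abs.integrableOn (hfi.const_mul Kc).integrableOn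
      hΩm.compl ?_
    intro y hy
    have hy' : ⟪(wn n : E5), (y : E5)⟫_ℝ < -1 + ρn n := by
      simpa [hΩ] using hy
    have h4 := h1.1 x y hx hy'
    rw [abs_mul, abs_of_pos ((hd n).2.1 y)]
    refine mul_le_mul_of_nonneg_right ?_ ((hd n).2.1 y).le
    unfold ell
    rw [abs_neg]
    have h5 : 1 - ⟪(x : E5), (y : E5)⟫_ℝ ≤ 2 := by
      have := neg_one_le_inner x y
      linarith
    have h6 : Real.log (η / 4) ≤ Real.log (1 - ⟪(x : E5), (y : E5)⟫_ℝ) :=
      Real.log_le_log (by linarith) h4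
    have h7 : Real.log (1 - ⟪(x : E5), (y : E5)⟫_ℝ) ≤ Real.log 2 :=
      Real.log_le_log (by linarith) h5
    rw [abs_le]
    have h8 : 0 < Real.log 2 := Real.log_pos (by norm_num)
    have h9 := neg_abs_le (Real.log (η / 4))
    have h10 := abs_nonneg (Real.log (η / 4))
    constructor <;> linarith
  have h4 := h3 x
  have h5 : Kc * ∫ y in Ωᶜ, fn n y ∂sig ≤ ε / 8 := by
    calc Kc * ∫ y in Ωᶜ, fn n y ∂sig ≤ Kc * (ε / 2 / (4 * Kc)) :=
          mul_le_mul_of_nonneg_left h2 hKp.le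
      _ = ε / 8 := by field_simp; ring
  have h6 : 4 * pot (fn n) x - U x = (4 * pot (fun y => Ω.indicator (fn n) y) x - U x) +
      4 * ∫ y in Ωᶜ, ell x y * fn n y ∂sig := by
    rw [hsplit]; ring
  rw [h6]
  refine (abs_add_le _ _).trans ?_
  rw [abs_mul, abs_of_pos (by norm_num : (0 : ℝ) < 4)]
  linarith

/-- the densities away from `-w` -/
theorem cpl_dens (eqc : EqcStmt) {w : S4} {wn : ℕ → S4} {Wn fn : ℕ → S4 → ℝ} {cn ρn Bn : ℕ → ℝ}
    {U : S4 → ℝ} {B : ℝ} (hw : Tendsto wn atTop (𝓝 w)) (hρ : Tendsto ρn atTop (𝓝 0))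
    (hB : Tendsto Bn atTop (𝓝 B)) (hUc : Continuous U) (hc : ∀ n, 0 < cn n)
    (hd : ∀ n, Dens (fn n))
    (hfn : ∀ n x, fn n x = Bn n * (Wn n x / cn n) * Real.exp (4 * pot (fn n) x))
    (hW : ∀ n (x : S4), -1 + ρn n ≤ ⟪(wn n : E5), (x : E5)⟫_ℝ → |Wn n x - cn n| ≤ ρn n * cn n)
    (hm : ∀ ε : ℝ, 0 < ε → ∃ u : ℝ, 0 < u ∧ ∀ᶠ n in atTop, ∀ z, mas (fn n) z u ≤ ε)
    (hU : ∀ ε : ℝ, 0 < ε → ∀ᶠ n in atTop, ∀ x, |4 * pot (fun y =>
      ({y : S4 | -1 + ρn n ≤ ⟪(wn n : E5), (y : E5)⟫_ℝ}).indicator (fn n) y) x - U x| ≤ ε)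
    {η : ℝ} (hη : 0 < η) {ε : ℝ} (hε : 0 < ε) :
    ∀ᶠ n in atTop, ∀ x : S4, -1 + η ≤ ⟪(w : E5), (x : E5)⟫_ℝ →
      |fn n x - B * Real.exp (U x)| ≤ ε := by
  obtain ⟨M, hM0, hM⟩ := exists_bound (Real.continuous_exp.comp hUc)
  have hcont : Continuous fun p : ℝ × ℝ × ℝ => p.1 * p.2.1 * Real.exp p.2.2 := by fun_prop
  have hε' : 0 < ε / (M + 1) := by positivity
  obtain ⟨δ, hδ, hG⟩ := (Metric.continuous_iff.1 hcont) (B, 1, 0) _ hε'
  have e1 := cpl_unif eqc hw hρ hd hm hU hη (ε := δ / 2) (by linarith)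
  have e2 : ∀ᶠ n in atTop, dist (Bn n) B < δ := (Metric.tendsto_nhds.1 hB) δ hδ
  have e3 : ∀ᶠ n in atTop, ρn n < δ := (tendsto_order.1 hρ).2 δ hδ
  filter_upwards [e1, e2, e3, cpl_sep hw hρ hη] with n h1 h2 h3 h4
  intro x hx
  have h5 := hW n x (h4.2 x hx)
  have h6 := h1 x hx
  set r : ℝ := Wn n x / cn n with hr
  set t : ℝ := 4 * pot (fn n) x - U x with ht
  have hr1 : |r - 1| ≤ ρn n := by
    have e : r - 1 = (Wn n x - cn n) / cn n := by
      rw [hr, sub_div, div_self (hc n).ne']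
    rw [e, abs_div, abs_of_pos (hc n), div_le_iff₀ (hc n)]
    exact h5
  have hdist : dist ((Bn n, r, t) : ℝ × ℝ × ℝ) (B, 1, 0) < δ := by
    rw [Prod.dist_eq, Prod.dist_eq]
    refine max_lt h2 (max_lt ?_ ?_)
    · show dist r 1 < δ
      rw [Real.dist_eq]
      linarith
    · show dist t 0 < δ
      rw [Real.dist_eq, sub_zero]
      linarith
  have h7 := hG _ hdist
  simp only [Real.exp_zero, mul_one] at h7
  rw [Real.dist_eq] at h7
  have h8 : fn n x - B * Real.exp (U x) = (Bn n * r * Real.exp t - B) * Real.exp (U x) := by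
    have e : Real.exp (4 * pot (fn n) x) = Real.exp t * Real.exp (U x) := by
      rw [← Real.exp_add, ht]
      congr 1
      ring
    rw [hfn n x, e, ← hr]
    ring
  rw [h8, abs_mul]
  have h9 : |Real.exp (U x)| ≤ M := hM x
  calc |Bn n * r * Real.exp t - B| * |Real.exp (U x)| ≤ ε / (M + 1) * M :=
        mul_le_mul h7.le h9 (abs_nonneg _) hε'.le
    _ ≤ ε / (M + 1) * (M + 1) := mul_le_mul_of_nonneg_left (by linarith) hε'.le
    _ = ε := by field_simp

/-- integrals against the densities -/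
theorem cpl_int {w : S4} {fn : ℕ → S4 → ℝ} {f k : S4 → ℝ} (hd : ∀ n, Dens (fn n))
    (hfc : Continuous f) (hfp : ∀ x, 0 ≤ f x)
    (hm : ∀ ε : ℝ, 0 < ε → ∃ u : ℝ, 0 < u ∧ ∀ᶠ n in atTop, ∀ z, mas (fn n) z u ≤ ε)
    (hlim : ∀ η : ℝ, 0 < η → ∀ ε : ℝ, 0 < ε → ∀ᶠ n in atTop, ∀ x : S4,
      -1 + η ≤ ⟪(w : E5), (x : E5)⟫_ℝ → |fn n x - f x| ≤ ε)
    (hk : Integrable k sig) (hki : ∀ n, Integrable (fun y => k y * fn n y) sig)
    {η₀ Kc : ℝ} (hη₀ : 0 < η₀) (hKc : 0 ≤ Kc)
    (hkb : ∀ y : S4, 1 + ⟪(w : E5), (y : E5)⟫_ℝ ≤ η₀ → |k y| ≤ Kc) :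
    Tendsto (fun n => ∫ y, k y * fn n y ∂sig) atTop (𝓝 (∫ y, k y * f y ∂sig)) := by
  obtain ⟨M, hM0, hM⟩ := exists_bound hfc
  have hkf : Integrable (fun y => k y * f y) sig :=
    hk.mul_bdd (c := M) hfc.aestronglyMeasurable (Eventually.of_forall fun y => by
      rw [Real.norm_eq_abs]; exact hM y)
  have hkaf : Integrable (fun y => |k y| * f y) sig := by
    have := hkf.abs
    refine this.congr (Eventually.of_forall fun y => ?_)
    show |k y * f y| = |k y| * f y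
    rw [abs_mul, abs_of_nonneg (hfp y)]
  -- the caps
  let E : ℕ → Set S4 := fun j => cap (-w) (1 / ((j : ℝ) + 1))
  have hEdef : ∀ j y, y ∈ E j ↔ 1 + ⟪(w : E5), (y : E5)⟫_ℝ ≤ 1 / ((j : ℝ) + 1) := by
    intro j y
    show 1 - ⟪((-w : S4) : E5), (y : E5)⟫_ℝ ≤ _ ↔ _
    rw [cpl_neg_coe, inner_neg_left, sub_neg_eq_add]
  have hEm : ∀ j, MeasurableSet (E j) := fun j => (cpl_cap_closed _ _).measurableSet
  have hEanti : Antitone E := by
    intro i j hij y hy
    rw [hEdef] at hy ⊢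
    refine hy.trans ?_
    have : (i : ℝ) ≤ j := by exact_mod_cast hij
    exact one_div_le_one_div_of_le (by positivity) (by linarith)
  have hEinter : (⋂ j, E j) ⊆ {(-w : S4)} := by
    intro y hy
    have h1 : ∀ j : ℕ, 1 + ⟪(w : E5), (y : E5)⟫_ℝ ≤ 1 / ((j : ℝ) + 1) := fun j =>
      (hEdef j y).1 (Set.mem_iInter.1 hy j)
    have h2 : 1 + ⟪(w : E5), (y : E5)⟫_ℝ ≤ 0 :=
      ge_of_tendsto' tendsto_one_div_add_atTop_nhds_zero_nat h1
    have h3 := cpl_norm_add y w
    have h4 : ‖(y : E5) + (w : E5)‖ = 0 := by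
      have := sq_nonneg ‖(y : E5) + (w : E5)‖
      have h5 : ‖(y : E5) + (w : E5)‖ ^ 2 = 0 := by linarith
      exact pow_eq_zero_iff two_ne_zero |>.1 h5
    rw [norm_eq_zero] at h4
    rw [Set.mem_singleton_iff]
    apply Subtype.ext
    rw [cpl_neg_coe]
    exact eq_neg_of_add_eq_zero_left h4
  have hnull : sig (⋂ j, E j) = 0 := by
    refine measure_mono_null hEinter ?_
    have := ae_ne (-w)
    rw [ae_iff] at this
    simpa using this
  have hElim : Tendsto (fun j => ∫ y in E j, |k y| * f y ∂sig) atTop (𝓝 0) := by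
    have h := tendsto_setIntegral_of_antitone (μ := sig) (f := fun y => |k y| * f y) hEm hEanti
      ⟨0, hkaf.integrableOn⟩
    rw [setIntegral_measure_zero _ hnull] at h
    exact h
  rw [Metric.tendsto_nhds]
  intro ε hε
  set Kt : ℝ := ∫ y, |k y| ∂sig with hKt
  have hKt0 : 0 ≤ Kt := integral_nonneg fun _ => abs_nonneg _
  obtain ⟨u, hu, hmu⟩ := hm (ε / 4 / (Kc + 1)) (by positivity)
  have e1 : ∀ᶠ j in atTop, ∫ y in E j, |k y| * f y ∂sig < ε / 4 :=
    (tendsto_order.1 hElim).2 _ (by linarith)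
  have e2 : ∀ᶠ j : ℕ in atTop, 1 / ((j : ℝ) + 1) < min u η₀ :=
    (tendsto_order.1 tendsto_one_div_add_atTop_nhds_zero_nat).2 _ (lt_min hu hη₀)
  obtain ⟨j, hj1, hj2⟩ := (e1.and e2).exists
  have hj2a : 1 / ((j : ℝ) + 1) < u := lt_of_lt_of_le hj2 (min_le_left _ _)
  have hj2b : 1 / ((j : ℝ) + 1) < η₀ := lt_of_lt_of_le hj2 (min_le_right _ _)
  have e3 := hlim (1 / ((j : ℝ) + 1)) (by positivity) (ε / 4 / (Kt + 1)) (by positivity)
  filter_upwards [hmu, e3] with n h1 h3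
  rw [Real.dist_eq, ← integral_sub (hki n) hkf]
  have hfi : Integrable (fn n) sig := integrable_cont (hd n).1
  have hi1 : Integrable ((E j).indicator fun y => Kc * fn n y) sig :=
    (hfi.const_mul Kc).indicator (hEm j)
  have hi2 : Integrable ((E j).indicator fun y => |k y| * f y) sig := hkaf.indicator (hEm j)
  have hi3 : Integrable (fun y => ε / 4 / (Kt + 1) * |k y|) sig := hk.abs.const_mul _
  have hpt : ∀ y, |k y * fn n y - k y * f y| ≤ (E j).indicator (fun y => Kc * fn n y) y +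
      (E j).indicator (fun y => |k y| * f y) y + ε / 4 / (Kt + 1) * |k y| := by
    intro y
    rw [← mul_sub, abs_mul]
    have hpos := (hd n).2.1 y
    have hc0 : 0 ≤ ε / 4 / (Kt + 1) * |k y| := by positivity
    by_cases hy : y ∈ E j
    · rw [Set.indicator_of_mem hy, Set.indicator_of_mem hy]
      have h4 := (hEdef j y).1 hy
      have h5 := hkb y (by linarith)
      have h6 : |fn n y - f y| ≤ fn n y + f y := by
        rw [abs_le]
        constructor <;> linarith [hfp y]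
      calc |k y| * |fn n y - f y| ≤ |k y| * (fn n y + f y) :=
            mul_le_mul_of_nonneg_left h6 (abs_nonneg _)
        _ = |k y| * fn n y + |k y| * f y := by ring
        _ ≤ Kc * fn n y + |k y| * f y :=
            add_le_add_left (mul_le_mul_of_nonneg_right h5 hpos.le) _
        _ ≤ Kc * fn n y + |k y| * f y + ε / 4 / (Kt + 1) * |k y| := by linarith
    · rw [Set.indicator_of_notMem hy, Set.indicator_of_notMem hy]
      have h4 : ¬ (1 + ⟪(w : E5), (y : E5)⟫_ℝ ≤ 1 / ((j : ℝ) + 1)) := fun h =>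
        hy ((hEdef j y).2 h)
      have h5 := h3 y (by linarith)
      calc |k y| * |fn n y - f y| ≤ |k y| * (ε / 4 / (Kt + 1)) :=
            mul_le_mul_of_nonneg_left h5 (abs_nonneg _)
        _ = 0 + 0 + ε / 4 / (Kt + 1) * |k y| := by ring
  have hI : |∫ y, (k y * fn n y - k y * f y) ∂sig| ≤
      (∫ y in E j, Kc * fn n y ∂sig) + (∫ y in E j, |k y| * f y ∂sig) +
        ε / 4 / (Kt + 1) * Kt := by
    refine abs_integral_le_integral_abs.trans ?_
    refine (integral_mono (((hki n).sub hkf).abs) ((hi1.add hi2).add hi3) hpt).trans ?_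
    rw [← integral_indicator (hEm j), ← integral_indicator (hEm j)]
    have e := integral_add (μ := sig) (hi1.add hi2) hi3
    have e' := integral_add (μ := sig) hi1 hi2
    simp only [Pi.add_apply] at e e' ⊢
    rw [integral_const_mul] at e
    rw [e, e']
  have hmas : ∫ y in E j, Kc * fn n y ∂sig ≤ ε / 4 := by
    rw [integral_const_mul]
    have h4 : ∫ y in E j, fn n y ∂sig ≤ ε / 4 / (Kc + 1) := by
      refine le_trans ?_ (h1 (-w))
      unfold mas
      refine setIntegral_mono_set hfi.integrableOn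
        (Eventually.of_forall fun y => ((hd n).2.1 y).le) (Eventually.of_forall fun y hy => ?_)
      exact le_trans hy hj2a.le
    calc Kc * ∫ y in E j, fn n y ∂sig ≤ Kc * (ε / 4 / (Kc + 1)) :=
          mul_le_mul_of_nonneg_left h4 hKc
      _ ≤ (Kc + 1) * (ε / 4 / (Kc + 1)) :=
          mul_le_mul_of_nonneg_right (by linarith) (by positivity)
      _ = ε / 4 := by field_simp
  have h5 : ε / 4 / (Kt + 1) * Kt ≤ ε / 4 := by
    calc ε / 4 / (Kt + 1) * Kt ≤ ε / 4 / (Kt + 1) * (Kt + 1) :=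
          mul_le_mul_of_nonneg_left (by linarith) (by positivity)
      _ = ε / 4 := by field_simp
  linarith

theorem cpl (eqc : EqcStmt) : CplStmt := by
  intro w wn Wn fn cn ρn Bn U B hw hρ hB hBp hUc hρp hc hf hW hm hU
  have hd : ∀ n, Dens (fn n) := fun n => (hf n).1
  have hfn := fun n => (hf n).2.2
  have hlim : ∀ η : ℝ, 0 < η → ∀ ε : ℝ, 0 < ε → ∀ᶠ n in atTop, ∀ x : S4,
      -1 + η ≤ ⟪(w : E5), (x : E5)⟫_ℝ → |fn n x - B * Real.exp (U x)| ≤ ε := fun η hη ε hε =>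
    cpl_dens eqc hw hρ hB hUc hc hd hfn hW hm hU hη hε
  set f : S4 → ℝ := fun y => B * Real.exp (U y) with hfdef
  have hfc : Continuous f := continuous_const.mul (Real.continuous_exp.comp hUc)
  have hfp : ∀ x, 0 < f x := fun x => mul_pos hBp (Real.exp_pos _)
  have hint : ∀ (k : S4 → ℝ), Continuous k →
      Tendsto (fun n => ∫ y, k y * fn n y ∂sig) atTop (𝓝 (∫ y, k y * f y ∂sig)) := by
    intro k hk
    obtain ⟨M, hM0, hM⟩ := exists_bound hk
    exact cpl_int hd hfc (fun x => (hfp x).le) hm hlim (integrable_cont hk)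
      (fun n => integrable_cont (hk.mul (hd n).1)) (η₀ := 1) one_pos hM0 (fun y _ => hM y)
  -- total mass
  have h1 : ∫ y, f y ∂sig = 1 := by
    have h := hint (fun _ => 1) continuous_const
    simp only [one_mul] at h
    have h' : (fun n => ∫ y, fn n y ∂sig) = fun _ => (1 : ℝ) := by
      funext n
      exact (hd n).2.2
    rw [h'] at h
    exact tendsto_nhds_unique h tendsto_const_nhds
  have hD : Dens f := ⟨hfc, hfp, h1⟩
  -- balance
  have hvec : ∀ g : S4 → ℝ, Continuous g → Integrable (fun y : S4 => g y • (y : E5)) sig := by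
    intro g hg
    have hc' : Continuous fun y : S4 => g y • (y : E5) := hg.smul continuous_subtype_val
    exact hc'.integrable_of_hasCompactSupport (HasCompactSupport.of_compactSpace _)
  have hin : ∀ (g : S4 → ℝ), Continuous g → ∀ v : E5,
      ∫ y : S4, ⟪v, (y : E5)⟫_ℝ * g y ∂sig = ⟪v, ∫ y : S4, g y • (y : E5) ∂sig⟫_ℝ := by
    intro g hg v
    rw [← integral_inner (hvec g hg)]
    refine integral_congr_ae (Eventually.of_forall fun y => ?_)
    show ⟪v, (y : E5)⟫_ℝ * g y = ⟪v, g y • (y : E5)⟫_ℝ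
    rw [inner_smul_right, mul_comm]
  have hBal : Bal f := by
    unfold Bal
    refine ext_inner_left ℝ fun v => ?_
    rw [inner_zero_right, ← hin f hfc v]
    have h := hint (fun y => ⟪v, (y : E5)⟫_ℝ) (continuous_const.inner continuous_subtype_val)
    have h' : (fun n => ∫ y : S4, ⟪v, (y : E5)⟫_ℝ * fn n y ∂sig) = fun _ => (0 : ℝ) := by
      funext n
      rw [hin (fn n) (hd n).1 v, (hf n).2.1, inner_zero_right]
    rw [h'] at h
    exact (tendsto_nhds_unique h tendsto_const_nhds)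
  -- the potential
  have hpot : ∀ x : S4, x ≠ -w → 4 * pot f x = U x := by
    intro x hx
    have hxw : 0 < 1 + ⟪(w : E5), (x : E5)⟫_ℝ := by
      by_contra hcon
      have h3 := cpl_norm_add x w
      have h4 := sq_nonneg ‖(x : E5) + (w : E5)‖
      have h5 : ‖(x : E5) + (w : E5)‖ ^ 2 = 0 := by linarith
      have h6 : ‖(x : E5) + (w : E5)‖ = 0 := pow_eq_zero_iff two_ne_zero |>.1 h5
      rw [norm_eq_zero] at h6
      apply hx
      apply Subtype.ext
      rw [cpl_neg_coe]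
      exact eq_neg_of_add_eq_zero_left h6
    set η : ℝ := 1 + ⟪(w : E5), (x : E5)⟫_ℝ with hη
    -- bound for the kernel near `-w`
    have hs := cpl_sep (w := w) (wn := fun _ => w) (ρn := fun n => 1 / ((n : ℝ) + 1))
      tendsto_const_nhds tendsto_one_div_add_atTop_nhds_zero_nat hxw
    obtain ⟨m, hm1, -⟩ := hs.exists
    have hkb : ∀ y : S4, 1 + ⟪(w : E5), (y : E5)⟫_ℝ ≤ 1 / ((m : ℝ) + 1) / 2 →
        |ell x y| ≤ |Real.log (η / 4)| + Real.log 2 := by
      intro y hy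
      have hmp : 0 < 1 / ((m : ℝ) + 1) := by positivity
      have h4 := hm1 x y (by rw [hη]; linarith) (by show _ < -1 + 1 / ((m : ℝ) + 1); linarith)
      unfold ell
      rw [abs_neg]
      have h5 : 1 - ⟪(x : E5), (y : E5)⟫_ℝ ≤ 2 := by
        have := neg_one_le_inner x y
        linarith
      have h6 : Real.log (η / 4) ≤ Real.log (1 - ⟪(x : E5), (y : E5)⟫_ℝ) :=
        Real.log_le_log (by linarith) h4
      have h7 : Real.log (1 - ⟪(x : E5), (y : E5)⟫_ℝ) ≤ Real.log 2 :=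
        Real.log_le_log (by linarith) h5
      rw [abs_le]
      have h8 : 0 < Real.log 2 := Real.log_pos (by norm_num)
      have h9 := neg_abs_le (Real.log (η / 4))
      have h10 := abs_nonneg (Real.log (η / 4))
      constructor <;> linarith
    have hell : Integrable (fun y => ell x y) sig := by
      have := cpl_ell_int eqc (continuous_const (y := (1 : ℝ))) x
      simpa using this
    have hconv : Tendsto (fun n => ∫ y, ell x y * fn n y ∂sig) atTop
        (𝓝 (∫ y, ell x y * f y ∂sig)) :=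
      cpl_int hd hfc (fun x => (hfp x).le) hm hlim hell (fun n => cpl_ell_int eqc (hd n).1 x)
        (η₀ := 1 / ((m : ℝ) + 1) / 2) (by positivity)
        (by
          have h8 : 0 < Real.log 2 := Real.log_pos (by norm_num)
          have h10 := abs_nonneg (Real.log (η / 4))
          linarith) hkb
    have hconv2 : Tendsto (fun n => 4 * pot (fn n) x) atTop (𝓝 (4 * pot f x)) := hconv.const_mul 4
    have hconv3 : Tendsto (fun n => 4 * pot (fn n) x) atTop (𝓝 (U x)) := by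
      rw [Metric.tendsto_nhds]
      intro ε hε
      filter_upwards [cpl_unif eqc hw hρ hd hm hU hxw (ε := ε / 2) (by linarith)] with n hn
      rw [Real.dist_eq]
      have := hn x (by rw [hη]; linarith)
      linarith
    exact tendsto_nhds_unique hconv2 hconv3
  have hpc : Continuous fun x => 4 * pot f x := continuous_const.mul (cpl_pot_cont eqc hfc)
  have hpe : (fun x => 4 * pot f x) = U := by
    refine (hpc.ae_eq_iff_eq sig hUc).1 ?_
    filter_upwards [ae_ne (-w)] with y hy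
    exact hpot y hy
  refine ⟨⟨hD, B, hBp, fun x => ?_⟩, hBal, fun η hη => hlim η hη η hη⟩
  have h2 : 4 * pot f x = U x := congrFun hpe x
  show B * Real.exp (U x) = B * 1 * Real.exp (4 * pot f x)
  rw [mul_one, h2]

end Pool.Agent.PQP.H29
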